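import Pool.Agent.Q74.PD.Stm
import Pool.Agent.H499R2.NDMix

/-! # Project PD of helper74: job Mix (fine-scale mixing of the offsets without the factor `k`) -/

set_option autoImplicit false

namespace Pool.Agent.Q208.PD

open Finset
open Pool.Agent.H499R2.ND Pool.Agent.H320R2.PD

/-- JOB PD-Mix. -/
theorem mix0 : Pool.Agent.Q74.PD.S_Mix := by
  intro B
  obtain ⟨C, hC, hg⟩ := gam_beyond (2 * B + 4)
  refine ⟨2 * Real.sqrt 2 * Real.sqrt C, by positivity, fun k n A hn hnk hA => ?_⟩
  have hnn : ∀ T, ∀ w ∈ FWT A k T, 0 ≤ wwt w := fun T w _ => wwt_nonneg w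
  have hmass : ∑ T ∈ range (k * A + 1), ∑ w ∈ FWT A k T, wwt w ≤ 1 := by
    unfold FWT
    rw [sum_fiberwise_of_maps_to (g := fun w : List ℕ => w.sum)]
    · exact sum_wwt_le A k
    · intro w hw
      have := (sum_le_of_mem hw).2
      simp only [mem_range]
      omega
  have hnR : (0 : ℝ) < n := by exact_mod_cast hn
  calc ∑ T ∈ range (k * A + 1), dev (FWT A k T) wwt (fun w => (Wo w : ℤ)) k n
      ≤ ∑ T ∈ range (k * A + 1), ∑ J ∈ Ico n k, Real.sqrt (2 * ∑ i ∈ FWT A k T, wwt i)
          * Real.sqrt (Gam (FWT A k T) wwt (fun w => (Wo w : ℤ)) J) :=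
        sum_le_sum fun T _ => dev_le _ (hnn T) n k hnk
    _ = ∑ J ∈ Ico n k, ∑ T ∈ range (k * A + 1), Real.sqrt (2 * ∑ i ∈ FWT A k T, wwt i)
          * Real.sqrt (Gam (FWT A k T) wwt (fun w => (Wo w : ℤ)) J) := sum_comm
    _ ≤ ∑ J ∈ Ico n k, Real.sqrt 2 * Real.sqrt (gam A k J) := by
        apply sum_le_sum
        intro J _
        refine (Real.sum_sqrt_mul_sqrt_le (range (k * A + 1))
          (f := fun T => 2 * ∑ i ∈ FWT A k T, wwt i)
          (g := fun T => Gam (FWT A k T) wwt (fun w => (Wo w : ℤ)) J) ?_ ?_).trans ?_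
        · intro T
          have := sum_nonneg (hnn T)
          positivity
        · intro T; exact Gam_nonneg _ J (hnn T)
        · apply mul_le_mul_of_nonneg_right _ (Real.sqrt_nonneg _)
          apply Real.sqrt_le_sqrt
          rw [← mul_sum]
          linarith
    _ ≤ ∑ J ∈ Ico n k, Real.sqrt 2 * (Real.sqrt C * (1 / (n : ℝ)) ^ B) * ((J : ℝ) ^ 2)⁻¹ := by
        apply sum_le_sum
        intro J hJ
        rw [mem_Ico] at hJ
        have hJ1 : 1 ≤ J := hn.trans hJ.1
        have hJR : (0 : ℝ) < J := by exact_mod_cast hJ1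
        have hnJ : (n : ℝ) ≤ J := by exact_mod_cast hJ.1
        have h1 : gam A k J ≤ gam A J J := by
          obtain ⟨a, ha⟩ := Nat.exists_eq_add_of_le hJ.2.le
          calc gam A k J = gam A (J + a) J := by rw [ha]
            _ ≤ gam A J (J + 0) * gam A a 0 := gam_rec A J a 0
            _ ≤ gam A J (J + 0) * 1 :=
                mul_le_mul_of_nonneg_left (gam_le_one _ _ _) (gam_nonneg _ _ _)
            _ = _ := by rw [mul_one, add_zero]
        have h2 := hg J hJ1 0 A (by omega)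
        rw [add_zero, Nat.cast_zero, zero_add] at h2
        have h3 : Real.sqrt (gam A k J) ≤ Real.sqrt C * (1 / (J : ℝ)) ^ (B + 2) := by
          refine Real.sqrt_le_iff.2 ⟨by positivity, (h1.trans h2).trans (le_of_eq ?_)⟩
          rw [mul_pow, Real.sq_sqrt hC.le, ← pow_mul]
          congr 2
          ring
        have h4 : (1 / (J : ℝ)) ^ (B + 2) ≤ (1 / (n : ℝ)) ^ B * ((J : ℝ) ^ 2)⁻¹ := by
          rw [pow_add, one_div_pow, one_div_pow, one_div_pow, one_div ((J : ℝ) ^ 2)]
          apply mul_le_mul_of_nonneg_right _ (by positivity)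
          exact one_div_le_one_div_of_le (by positivity) (pow_le_pow_left₀ hnR.le hnJ B)
        calc Real.sqrt 2 * Real.sqrt (gam A k J)
            ≤ Real.sqrt 2 * (Real.sqrt C * ((1 / (n : ℝ)) ^ B * ((J : ℝ) ^ 2)⁻¹)) := by
              apply mul_le_mul_of_nonneg_left _ (Real.sqrt_nonneg _)
              exact h3.trans (mul_le_mul_of_nonneg_left h4 (Real.sqrt_nonneg _))
          _ = _ := by ring
    _ = Real.sqrt 2 * (Real.sqrt C * (1 / (n : ℝ)) ^ B) * ∑ J ∈ Ico n k, ((J : ℝ) ^ 2)⁻¹ := by rw [mul_sum]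
    _ ≤ Real.sqrt 2 * (Real.sqrt C * (1 / (n : ℝ)) ^ B) * 2 := by
        apply mul_le_mul_of_nonneg_left _ (by positivity)
        have h5 : ∑ J ∈ Ico n k, ((J : ℝ) ^ 2)⁻¹ ≤ ∑ J ∈ Ioo 0 k, ((J : ℝ) ^ 2)⁻¹ := by
          apply sum_le_sum_of_subset_of_nonneg
          · intro J hJ
            rw [mem_Ico] at hJ
            rw [mem_Ioo]
            omega
          · intro J _ _
            positivity
        have h6 := sum_Ioo_inv_sq_le (α := ℝ) 0 k
        have h7 : (2 : ℝ) / (((0 : ℕ) : ℝ) + 1) = 2 := by norm_num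
        rw [h7] at h6
        exact h5.trans h6
    _ = 2 * Real.sqrt 2 * Real.sqrt C / (n : ℝ) ^ B := by
        rw [one_div_pow]
        ring

end Pool.Agent.Q208.PD
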