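import Pool.Agent.Q74.PD.Stm
import Pool.Agent.H499R2.NDStep2

/-! # Project PD of helper74: job Vld (valid words against the mass of the words valid to precision `n`) -/

set_option autoImplicit false

namespace Pool.Agent.Q208.PD

open Finset
open Pool.Agent.H499R2.ND Pool.Agent.H320R2.PD

/-- the integers of `[A, 2A)` in one class -/
theorem card_class {A : ℝ} (hA : 1 ≤ A) {k : ℕ} {u : ℤ} (hu : IsCoprime u 3) (r : ℤ) :
    ((((Ico ⌈A⌉ ⌈2 * A⌉).filter fun x => (3 : ℤ) ^ k ∣ u * x - r)).card : ℝ) ≤ A / 3 ^ k + 2 := by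
  classical
  have h3 : (0 : ℤ) < 3 ^ k := by positivity
  have h3R : (0 : ℝ) < 3 ^ k := by positivity
  rcases ((Ico ⌈A⌉ ⌈2 * A⌉).filter fun x => (3 : ℤ) ^ k ∣ u * x - r).eq_empty_or_nonempty with h0 | ⟨x0, hx0⟩
  · rw [h0, card_empty, Nat.cast_zero]
    positivity
  have hsub : ((Ico ⌈A⌉ ⌈2 * A⌉).filter fun x => (3 : ℤ) ^ k ∣ u * x - r) ⊆
      (Ico ⌈A⌉ ⌈2 * A⌉).filter fun x => x ≡ x0 [ZMOD 3 ^ k] := by
    intro x hx
    rw [mem_filter] at hx hx0 ⊢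
    refine ⟨hx.1, ?_⟩
    have h1 : (3 : ℤ) ^ k ∣ u * (x0 - x) := by
      have := dvd_sub hx0.2 hx.2
      rwa [show u * x0 - r - (u * x - r) = u * (x0 - x) by ring] at this
    have h2 : (3 : ℤ) ^ k ∣ x0 - x := (hu.symm.pow_left (m := k)).dvd_of_dvd_mul_left h1
    exact Int.modEq_iff_dvd.2 h2
  have h1 := Int.Ico_filter_modEq_card ⌈A⌉ ⌈2 * A⌉ h3 x0
  have h2 : ((((Ico ⌈A⌉ ⌈2 * A⌉).filter fun x => x ≡ x0 [ZMOD 3 ^ k]).card : ℤ) : ℝ) ≤ A / 3 ^ k + 2 := by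
    rw [h1]
    have e1 := Int.ceil_lt_add_one (((⌈2 * A⌉ - x0 : ℤ) : ℚ) / ((3 ^ k : ℤ) : ℚ))
    have e2 := Int.le_ceil (((⌈A⌉ - x0 : ℤ) : ℚ) / ((3 ^ k : ℤ) : ℚ))
    have e3 : (((⌈((⌈2 * A⌉ - x0 : ℤ) : ℚ) / ((3 ^ k : ℤ) : ℚ)⌉ - ⌈((⌈A⌉ - x0 : ℤ) : ℚ) / ((3 ^ k : ℤ) : ℚ)⌉ : ℤ) : ℚ)) ≤
        ((⌈2 * A⌉ - ⌈A⌉ : ℤ) : ℚ) / ((3 ^ k : ℤ) : ℚ) + 1 := by
      have e4 : ((⌈2 * A⌉ - ⌈A⌉ : ℤ) : ℚ) / ((3 ^ k : ℤ) : ℚ) =
          ((⌈2 * A⌉ - x0 : ℤ) : ℚ) / ((3 ^ k : ℤ) : ℚ) - ((⌈A⌉ - x0 : ℤ) : ℚ) / ((3 ^ k : ℤ) : ℚ) := by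
        rw [← sub_div]
        congr 1
        push_cast
        ring
      rw [e4]
      push_cast at e1 e2 ⊢
      linarith
    have e5 : (((⌈((⌈2 * A⌉ - x0 : ℤ) : ℚ) / ((3 ^ k : ℤ) : ℚ)⌉ - ⌈((⌈A⌉ - x0 : ℤ) : ℚ) / ((3 ^ k : ℤ) : ℚ)⌉ : ℤ) : ℝ)) ≤
        ((⌈2 * A⌉ - ⌈A⌉ : ℤ) : ℝ) / 3 ^ k + 1 := by
      have := (Rat.cast_le (K := ℝ)).2 e3
      push_cast at this ⊢
      exact this
    have e6 : ((⌈2 * A⌉ - ⌈A⌉ : ℤ) : ℝ) ≤ A + 1 := by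
      have a1 := Int.ceil_lt_add_one (2 * A)
      have a2 := Int.le_ceil A
      push_cast
      linarith
    have e7 : ((⌈2 * A⌉ - ⌈A⌉ : ℤ) : ℝ) / 3 ^ k ≤ A / 3 ^ k + 1 := by
      rw [div_add_one h3R.ne']
      apply div_le_div_of_nonneg_right _ h3R.le
      have : (1 : ℝ) ≤ 3 ^ k := one_le_pow₀ (by norm_num)
      linarith
    push_cast [Int.cast_max]
    push_cast at e5 e7
    refine max_le ?_ (by positivity)
    linarith
  have h4 : ((((Ico ⌈A⌉ ⌈2 * A⌉).filter fun x => (3 : ℤ) ^ k ∣ u * x - r)).card : ℝ) ≤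
      (((Ico ⌈A⌉ ⌈2 * A⌉).filter fun x => x ≡ x0 [ZMOD 3 ^ k]).card : ℝ) := by
    exact_mod_cast card_le_card hsub
  refine h4.trans ?_
  exact_mod_cast h2

/-- JOB PD-Vld. -/
theorem vld : Pool.Agent.Q74.PD.S_Vld := by
  classical
  intro d hd3 A hA cap k T n hnk
  obtain ⟨p, q, hpq⟩ : IsCoprime d ((3 : ℤ) ^ k) := hd3.pow_right
  obtain ⟨e, he⟩ : ∃ e : ℤ → ℤ, e = fun x => p * (2 ^ T * x) := ⟨_, rfl⟩
  have hwt : ∀ w ∈ FWT cap k T, wwt w = (1 / 2 : ℝ) ^ T := by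
    intro w hw
    unfold FWT at hw
    unfold wwt
    rw [(mem_filter.1 hw).2]
  have hdc : ∀ m : ℕ, IsCoprime ((3 : ℤ) ^ m) d := fun m => hd3.symm.pow_left
  have key : ∀ m, m ≤ k → ∀ (x : ℤ) (W : ℤ), ((3 : ℤ) ^ m ∣ 2 ^ T * x - d * W ↔ (3 : ℤ) ^ m ∣ W - e x) := by
    intro m hm x W
    have hdk : (3 : ℤ) ^ m ∣ 3 ^ k := pow_dvd_pow 3 hm
    have e1 : (2 ^ T * x - d * W) + d * (W - e x) = 3 ^ k * (q * (2 ^ T * x)) := by
      rw [he]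
      have h1 : p * d = 1 - q * 3 ^ k := by linarith
      calc (2 ^ T * x - d * W) + d * (W - p * (2 ^ T * x))
          = 2 ^ T * x - (p * d) * (2 ^ T * x) := by ring
        _ = _ := by rw [h1]; ring
    have h2 : (3 : ℤ) ^ m ∣ (2 ^ T * x - d * W) + d * (W - e x) := by
      rw [e1]
      exact hdk.mul_right _
    constructor
    · intro h
      apply (hdc m).dvd_of_dvd_mul_left
      have := dvd_sub h2 h
      rwa [add_sub_cancel_left] at this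
    · intro h
      have := dvd_sub h2 (h.mul_left d)
      rwa [add_sub_cancel_right] at this
  have hNv : ∀ x : ℤ, Pool.Agent.Q74.PD.Nv d cap k T x = 2 ^ T * cnt (FWT cap k T) wwt (fun w => (Wo w : ℤ)) k (e x) := by
    intro x
    unfold Pool.Agent.Q74.PD.Nv cnt
    rw [card_filter, mul_sum]
    push_cast
    apply sum_congr rfl
    intro w hw
    rw [hwt w hw]
    by_cases h : (3 : ℤ) ^ k ∣ 2 ^ T * x - d * (Wo w : ℤ)
    · rw [if_pos h, if_pos ((key k le_rfl x _).1 h), ← mul_pow]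
      norm_num
    · rw [if_neg h, if_neg (fun h' => h ((key k le_rfl x _).2 h')), mul_zero]
  have hCv : ∀ x : ℤ, Pool.Agent.Q74.PD.Cv d cap k T n x = cnt (FWT cap k T) wwt (fun w => (Wo w : ℤ)) n (e x) := by
    intro x
    unfold Pool.Agent.Q74.PD.Cv cnt
    apply sum_congr rfl
    intro w hw
    by_cases h : (3 : ℤ) ^ n ∣ 2 ^ T * x - d * (Wo w : ℤ)
    · rw [if_pos h, if_pos ((key n hnk x _).1 h)]
    · rw [if_neg h, if_neg (fun h' => h ((key n hnk x _).2 h'))]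
  have hpc : IsCoprime (p * 2 ^ T) 3 ∨ k = 0 := by
    rcases Nat.eq_zero_or_pos k with hk | hk
    · exact Or.inr hk
    · left
      apply IsCoprime.mul_left
      · have : IsCoprime p ((3 : ℤ) ^ k) := ⟨d, q, by linarith⟩
        exact this.of_isCoprime_of_dvd_right (dvd_pow_self 3 (by omega))
      · exact cop_two_pow T
  have hT : (0 : ℝ) < 2 ^ T := by positivity
  have hdiff : ∑ x ∈ Ico ⌈A⌉ ⌈2 * A⌉, |cnt (FWT cap k T) wwt (fun w => (Wo w : ℤ)) k (e x)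
        - cnt (FWT cap k T) wwt (fun w => (Wo w : ℤ)) n (e x) / 3 ^ (k - n)|
      ≤ (A / 3 ^ k + 2) * dev (FWT cap k T) wwt (fun w => (Wo w : ℤ)) k n := by
    unfold dev
    apply sum_periodic_le (g := fun c => |cnt (FWT cap k T) wwt (fun w => (Wo w : ℤ)) k c
        - cnt (FWT cap k T) wwt (fun w => (Wo w : ℤ)) n c / 3 ^ (k - n)|)
    · intro r
      rcases hpc with hpc | hk0
      · have h1 := card_class hA (k := k) hpc r
        rw [he]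
        simp only [← mul_assoc]
        exact h1
      · subst hk0
        have h1 := card_class hA (k := 0) isCoprime_one_left r
        simp only [pow_zero, isUnit_one, IsUnit.dvd] at h1 ⊢
        exact h1
    · intro c; exact abs_nonneg _
    · intro c c' hcc
      have h1 := cnt_congr (s := FWT cap k T) (wt := wwt) (fun w => (Wo w : ℤ)) k hcc
      have h2 := cnt_congr (s := FWT cap k T) (wt := wwt) (fun w => (Wo w : ℤ)) n
        ((pow_dvd_pow 3 hnk).trans hcc)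
      rw [h1, h2]
  calc ∑ a ∈ Ico ⌈A⌉ ⌈2 * A⌉, |Pool.Agent.Q74.PD.Nv d cap k T a
          - 2 ^ T * Pool.Agent.Q74.PD.Cv d cap k T n a / 3 ^ (k - n)|
      = ∑ a ∈ Ico ⌈A⌉ ⌈2 * A⌉, 2 ^ T * |cnt (FWT cap k T) wwt (fun w => (Wo w : ℤ)) k (e a)
        - cnt (FWT cap k T) wwt (fun w => (Wo w : ℤ)) n (e a) / 3 ^ (k - n)| := by
        apply sum_congr rfl
        intro a _
        rw [hNv, hCv, mul_div_assoc, ← mul_sub, abs_mul, abs_of_pos hT]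
    _ = 2 ^ T * ∑ a ∈ Ico ⌈A⌉ ⌈2 * A⌉, |cnt (FWT cap k T) wwt (fun w => (Wo w : ℤ)) k (e a)
        - cnt (FWT cap k T) wwt (fun w => (Wo w : ℤ)) n (e a) / 3 ^ (k - n)| := by rw [mul_sum]
    _ ≤ 2 ^ T * ((A / 3 ^ k + 2) * dev (FWT cap k T) wwt (fun w => (Wo w : ℤ)) k n) :=
        mul_le_mul_of_nonneg_left hdiff hT.le
    _ = _ := by ring

end Pool.Agent.Q208.PD
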